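import Pool.Agent.helper79.MstPoints

/-!
The approximation ratio of the minimum spanning tree heuristic for broadcasting in three dimensions
is strictly larger than the kissing number `12`, for every exponent.
-/

set_option autoImplicit false

namespace Pool.Agent.Results.MP_c0cefe_lc.AboveKissingNumber

open Pool.Agent.helper79.Mst

/-- For every exponent `α > 0`, the approximation ratio of the minimum spanning tree heuristic in
three dimensions is at least `12 + 0.477 ^ α + 0.253 ^ α + 0.205 ^ α`. -/
theorem result (α : ℝ) (hα : 0 < α) :
    ((12 + (0.477 : ℝ) ^ α + (0.253 : ℝ) ^ α + (0.205 : ℝ) ^ α : ℝ) : EReal) ≤ rho3 α :=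
  main hα

end Pool.Agent.Results.MP_c0cefe_lc.AboveKissingNumber
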