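import Pool.Agent.helper62.Brd.Mono

/-!
An effective upper bound, for every exponent `α ≥ 3`, for the approximation ratio `ρ_3(α)` of the
minimum spanning tree heuristic for broadcasting in three dimensions.
-/

set_option autoImplicit false

namespace Pool.Agent.Results.MP_c0cefe_lc.EffectiveBound

open Pool.Agent.helper79.Mst Pool.Agent.helper62.Brd

/-- `ρ_3` is nonincreasing and `ρ_3(α) ≤ K(r) + 125 r ^ (α - 3)` for all `α ≥ 3` and `0 < r ≤ 1`,
where `K(r)` is the largest number of points with norms in `[r, 1]` and mutual distances at least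
`r`; some `r < 1` has `K(r) = κ`, the kissing number. -/
theorem result :
    (∀ α β : ℝ, 0 < α → α ≤ β → rho3 β ≤ rho3 α) ∧
    (∀ α r : ℝ, 3 ≤ α → 0 < r → r ≤ 1 →
      rho3 α ≤ ((kissR r + 125 * r ^ (α - 3) : ℝ) : EReal)) ∧
    (∃ r : ℝ, 0 < r ∧ r < 1 ∧ kissR r = kiss) :=
  ⟨fun _ _ hα h => rho3_antitone hα h, fun _ _ hα hr hr1 => rho3_le_explicit hα hr hr1,
    exists_kissR_eq⟩

end Pool.Agent.Results.MP_c0cefe_lc.EffectiveBound
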