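import Pool.Agent.helper62.Brd.Main

/-!
The approximation ratio `ρ_3(α)` of the minimum spanning tree heuristic for broadcasting in three
dimensions is the supremum of the `α`-costs of the minimum spanning trees of the finite subsets of
the unit ball which contain the centre, and for large `α` it is the kissing number plus the `α`-th
power of an explicit geometric constant `cstar < 1`, up to the factor `exp (o (α))` in the second
term.
-/

set_option autoImplicit false

namespace Pool.Agent.Results.MP_c0cefe_lc.LargeExponent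

open Pool.Agent.helper79.Mst Pool.Agent.helper62.Brd

/-- `ρ_3 = σ` for every positive exponent, and `ρ_3(α) = κ + (c* + o(1)) ^ α` as `α → ∞`, where `κ`
is the kissing number of the three-dimensional space and `0 ≤ c* < 1`. -/
theorem result :
    (∀ α : ℝ, 0 < α → rho3 α = sigma α) ∧
    0 ≤ cstar ∧ cstar < 1 ∧
    (∀ α : ℝ, 0 < α → ((kiss + cstar ^ α : ℝ) : EReal) ≤ rho3 α) ∧
    (∀ ε : ℝ, 0 < ε → ∃ A : ℝ, ∀ α : ℝ, A ≤ α →
      rho3 α ≤ ((kiss + (cstar + ε) ^ α : ℝ) : EReal)) :=
  ⟨fun _ hα => rho3_eq_sigma hα, cstar_nonneg, cstar_lt_one, fun _ hα => rho3_lower hα,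
    fun _ hε => rho3_upper hε⟩

end Pool.Agent.Results.MP_c0cefe_lc.LargeExponent
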