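import Pool.Agent.helper53.Bru.Fin4

/-!
An upper bound for the approximation ratio `ρ_3(α)` of the minimum spanning tree heuristic for
broadcasting in three dimensions, for every exponent `α ≥ 3`.
-/

set_option autoImplicit false

namespace Pool.Agent.Results.MP_c0cefe_lc.UpperBound

open Pool.Agent.helper79.Mst

/-- `ρ_3(α) ≤ 16.5` for every `α ≥ 3`. -/
theorem result (α : ℝ) (hα : 3 ≤ α) : rho3 α ≤ ((16.5 : ℝ) : EReal) := by
  have h := Pool.Agent.helper53.Bru.rho3_le hα
  have e : (33 / 2 : ℝ) = 16.5 := by norm_num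
  rwa [e] at h

end Pool.Agent.Results.MP_c0cefe_lc.UpperBound
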